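import Pool.Agent.Run7.h702.CT.C
import Pool.Agent.Results.MP_542436_nt.TotientOrbits

/-!
# Vojta's conjecture on `ℙ¹ × ℙ¹` near ALL the terms of almost every Collatz trajectory

The points `(P, Q)` of `ℙ¹ × ℙ¹` over a number field, of all heights, such that the larger one of the conductors
`exp N^(1)(a, P)` and `exp N^(1)(b, Q)` is near a multiple `c G v`, `1 ≤ c ≤ v ^ η`, where `v` is a term of the trajectory of
`m` under the Collatz map (`n / 2`, `3 n + 1`) before its first value smaller than `Y`. For all `m ≤ N` but at most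
`K N / (log Y) ^ B` (every `B`, all `Y ≥ 2`) the trajectory has such a value, and for EVERY term `v` before it ALL these points
satisfy the inequality with truncated counting function for all divisors. So if `F` tends to infinity, however slowly, then for
almost every `m` this holds for all the terms of the trajectory of `m` down to its first value smaller than `F m`.

The terms of the trajectory of a random integer are not distributed like random integers of their size. The tool is the
avoidance of thin sets by all the terms of almost every trajectory (starting theorem; Tao's theorem in natural density), in the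
form of `Run7/h702/CT` (multiples and windows).
-/

set_option autoImplicit false

namespace Pool.Agent.Results.MP_542436_nt.CollatzTerms

open NumberField IsDedekindDomain Filter Topology
open GridAlmostAllPoints (P1 height count countD biform)
open MultiplicativeValues (VojtaForAllDivisors Bad bad_eq)
open TotientOrbits (bad_count)

/-- The Collatz map. -/
def collatz (n : ℕ) : ℕ := if n % 2 = 0 then n / 2 else 3 * n + 1

/-- The trajectory of `m` takes a value smaller than `Y`, and EVERY term `v` before it has the property `P`. -/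
def AllTerms (P : ℕ → Prop) (Y : ℝ) (m : ℕ) : Prop :=
  ∃ k : ℕ, ((collatz^[k] m : ℕ) : ℝ) < Y ∧ ∀ j < k, P (collatz^[j] m)

/-- `P` holds for all the terms of almost every trajectory: (1) for every `B` there is `K` such that `AllTerms P Y m` holds, for
all `Y ≥ 2` and `N`, for all the `m ∈ [1, N]` but at most `K N / (log Y)^B`; (2) for every function `F` which tends to infinity
the density of the `m` with `AllTerms P (F m) m` is `1`. -/
def OnAllTerms (P : ℕ → Prop) : Prop :=
  (∀ B : ℕ, ∃ K : ℝ, ∀ Y : ℝ, 2 ≤ Y → ∀ N : ℕ,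
    (Set.ncard {m : ℕ | 1 ≤ m ∧ m ≤ N ∧ ¬ AllTerms P Y m} : ℝ) ≤ K * N / Real.log Y ^ B) ∧
  ∀ F : ℕ → ℝ, Tendsto F atTop atTop →
    Tendsto (fun N : ℕ => (Set.ncard {m : ℕ | 1 ≤ m ∧ m ≤ N ∧ AllTerms P (F m) m} : ℝ) / N) atTop (𝓝 1)

/-- The steps of `G` are at least a positive constant, and `G` grows at most like `v ^ d`, `d ≥ 1`. -/
structure Expanding (G : ℕ → ℝ) (d : ℝ) : Prop where
  one_le : 1 ≤ d
  step : ∃ a : ℝ, 0 < a ∧ ∀ v : ℕ, 1 ≤ v → a ≤ G (v + 1) - G v
  growth : ∃ C : ℝ, ∀ v : ℕ, 1 ≤ v → G v ≤ C * (v : ℝ) ^ d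

/-- `x` is near one of the small multiples of `G v`. -/
def Near (G : ℕ → ℝ) (κ η : ℝ) (v : ℕ) (x : ℝ) : Prop :=
  ∃ a : ℕ, 1 ≤ a ∧ (a : ℝ) ≤ (v : ℝ) ^ η ∧ |x - a * G v| ≤ (v : ℝ) ^ (κ + η)

theorem ex_of {G : ℕ → ℝ} {d : ℝ} (h : Expanding G d) : Pool.Agent.N733.TG.Expanding G d := ⟨h.one_le, h.step, h.growth⟩

theorem ex_pow {a d : ℝ} (ha : 0 < a) (hd : 1 ≤ d) : Expanding (fun v => a * (v : ℝ) ^ d) d := by
  obtain ⟨h1, h2, h3⟩ := Pool.Agent.N733.TG.expanding_pow ha hd
  exact ⟨h1, h2, h3⟩

theorem on_of {P : ℕ → Prop} (h : Run7.h702.CT.OnAllTerms P) : OnAllTerms P := h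

/-- **Vojta's conjecture on `ℙ¹ × ℙ¹` near all the terms of almost every Collatz trajectory.** Let `K` be a number field, `S` a
finite set of primes, `q, r ≥ 3` and `a_1, …, a_q`, `b_1, …, b_r` different points of the projective line over `K`. For every
`ε > 0` there is `ν > 0` such that for all expanding `G` of order `d` and all `κ ≥ 0` with `d (2/q + 2/r - ν) + κ < 1` there is
`η > 0` such that for all the terms `v` of almost every trajectory ALL points `(P, Q)` over `K` off the fibres with
`max (exp N^(1)(a, P), exp N^(1)(b, Q))` near a small multiple of `G v` satisfy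
`N^(1)_D(P, Q) ≥ (q - ε) h(P) + (r - ε) h(Q)` for EVERY divisor `D`, of any bidegree, which contains the fibres but not
`(P, Q)`. (The number of the points with both conductors at most `X` is `X^(2/q + 2/r + o(1))`: starting theorem.) -/
theorem result (K : Type) [Field K] [NumberField K] (S : Set (HeightOneSpectrum (𝓞 K)))
    (hS : S.Finite) (q r : ℕ) (hq : 3 ≤ q) (hr : 3 ≤ r) (a : Fin q → P1 K) (b : Fin r → P1 K)
    (ha : Function.Injective a) (hb : Function.Injective b) :
    (∀ ε : ℝ, 0 < ε → ∃ ν : ℝ, 0 < ν ∧ ∀ (G : ℕ → ℝ) (d κ : ℝ), Expanding G d → 0 ≤ κ →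
      d * (2 / (q : ℝ) + 2 / (r : ℝ) - ν) + κ < 1 → ∃ η : ℝ, 0 < η ∧
      OnAllTerms (fun v => ∀ P Q : P1 K, (∀ i, P ≠ a i) → (∀ j, Q ≠ b j) →
        Near G κ η v (max (Real.exp (count S a P)) (Real.exp (count S b Q))) → VojtaForAllDivisors S a b ε P Q)) ∧
    ∀ α d : ℝ, 0 < α → 1 ≤ d → Expanding (fun v => α * (v : ℝ) ^ d) d := by
  refine ⟨fun ε hε => ?_, fun α d hα hd => ex_pow hα hd⟩
  obtain ⟨ν, C, hν, hνq, hcount⟩ := bad_count S hS hq hr a b ha hb ε hε
  have hr0 : (0 : ℝ) ≤ 2 / r := by positivity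
  refine ⟨ν, hν, fun G d κ hG hκ h1 => ?_⟩
  obtain ⟨η, hη, h2⟩ := Run7.h702.CT.good' (fun _ : P1 K × P1 K => True) (fun z => z ∉ Bad S a b ε)
    (fun z => max (Real.exp (count S a z.1)) (Real.exp (count S b z.2))) (ex_of hG)
    (s := 2 / (q : ℝ) + 2 / (r : ℝ) - ν) (κ := κ) (by linarith) hκ h1 ⟨C, fun X hX => by
      have e : {t : P1 K × P1 K | (True ∧ ¬ t ∉ Bad S a b ε) ∧
          max (Real.exp (count S a t.1)) (Real.exp (count S b t.2)) ≤ X} =
          {z | z ∈ Bad S a b ε ∧ max (Real.exp (count S a z.1)) (Real.exp (count S b z.2)) ≤ X} := by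
        ext z
        constructor
        · rintro ⟨⟨_, g1⟩, g2⟩
          exact ⟨not_not.1 g1, g2⟩
        · rintro ⟨g1, g2⟩
          exact ⟨⟨trivial, not_not.2 g1⟩, g2⟩
      rw [e]
      exact hcount X hX⟩
  refine ⟨η, hη, on_of (h2.imp (fun v hv P Q hP hQ hN => ?_))⟩
  obtain ⟨c, hc1, hc2, hc3⟩ := hN
  by_contra hcon
  exact hv c hc1 hc2 (P, Q) trivial hc3 ⟨hP, hQ, hcon⟩

end Pool.Agent.Results.MP_542436_nt.CollatzTerms
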