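import Pool.Agent.Run7.h742.UN.Fin

/-!
# Vojta's conjecture with truncated counting function on `ℙ¹ × ℙ¹`: the integral points in every fibre

Let `D` be a reduced divisor of bidegree `(q, r)` on `ℙ¹ × ℙ¹` over `ℚ`: the sum of different prime
divisors `D_j` of bidegree `(a_j, b_j)`, `a_j ≥ 1`, of `e ∈ {0, 1}` times the fibre `x = ∞` and of `g`
fibres of the second projection; no condition on the singularities and on the intersections. All but
finitely many fibres `x ↦ (x, t)`, `t` rational, are transversal to `∑ D_j`. We consider the points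
`(x / m, t)` with integral `x` (and any fixed denominator `m`) in EVERY transversal fibre.

If `θ + η < ∑ min (a_j, 2)` then in every transversal fibre of height at most `A log B`, for every `m ≠ 0`,
`|m| ≤ B ^ A`, all but at most `C B ^ (1 - c)` of the integers `|x| ≤ B` satisfy `N_S^(1)(∑ D_j) ≥ θ log B`
for all sets `S` of primes with `∑_{p ∈ S} log p ≤ η log B`. The numbers `c > 0` and `C` depend only on the
bidegrees, `A`, `θ` and `η`, neither on `t` nor on `m`, nor on the coefficients of `D` (if they are at most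
`B ^ A`).

If `∑ max (a_j - 2, 0) + e + κ max (r - 2, 0) + η < 2 + ε`, this gives the inequality of the conjecture,
`(q - 2 - ε) h(x / m) + (r - 2) h(t) ≤ N_S^(1)(D)`, in every transversal fibre of height
`h(t) ≤ κ log B`, for all but at most `C B ^ (1 - c)` of the integers `|x| ≤ B`, `|m| ≤ B`. For example, for
all `D` with `r ≤ 2` and `∑ max (a_j - 2, 0) + e ≤ 2` there is no condition on the height of the fibre,
except that it is at most a fixed multiple of `log B`; and for all `D` with `a_j ≤ 2` and any `r` it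
holds for `h(t) ≤ κ log B`, `κ (r - 2) < 2 - e`.

The proof is an application of the uniform theorem on the radical of the values of polynomials in one
variable (`Run7.h742.UN`) to the polynomials `z ^ b P_j (X, y / z)`, `t = y / z`.
-/

set_option autoImplicit false

namespace Pool.Agent.Results.MP_542436_nt.EveryFibre

open Polynomial

/-- the value at the point `((x : m), (y : z))` of the form of bidegree `(a, b)` which is given by the
polynomial `P` in `ℤ[T][X]` -/
noncomputable def value (a b : ℕ) (P : ℤ[X][X]) (x m y z : ℤ) : ℤ :=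
  ∑ u ∈ Finset.range (a + 1), (∑ v ∈ Finset.range (b + 1), (P.coeff u).coeff v * y ^ v * z ^ (b - v)) *
    x ^ u * m ^ (a - u)

/-- the sum of `log p` over the primes `p` outside `S` that divide `a` -/
noncomputable def counting (S : Finset ℕ) (a : ℤ) : ℝ :=
  ∑ p ∈ a.natAbs.primeFactors \ S, Real.log (p : ℝ)

/-- the polynomial `P` over `ℚ` -/
noncomputable def rat (P : ℤ[X][X]) : ℚ[X][X] := P.map (mapRingHom (Int.castRingHom ℚ))

/-- the polynomial `P (X, t)` -/
noncomputable def fibre (P : ℤ[X][X]) (t : ℚ) : ℚ[X] := (rat P).map (evalRingHom t)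

/-- different prime divisors `P_j = 0` of `ℙ¹ × ℙ¹` over `ℚ`, of bidegree `(a_j, b_j)`, `a_j ≥ 1`
(they are not fibres of the second projection), and different from `x = ∞` -/
structure Divisor {s : ℕ} (a b : Fin s → ℕ) (P : Fin s → ℤ[X][X]) : Prop where
  degree_x : ∀ j, (P j).natDegree = a j
  degree_t_le : ∀ j u, ((P j).coeff u).natDegree ≤ b j
  degree_t : ∀ j, ∃ u, ((P j).coeff u).natDegree = b j
  prime : ∀ j, Irreducible (rat (P j))
  distinct : ∀ i j, i ≠ j → ¬ Associated (rat (P i)) (rat (P j))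

/-- The fibre `x ↦ (x, t)` is transversal to the divisor: it meets the `P_j = 0` in `∑ a_j` different
points, none of which is at `x = ∞`. -/
def Transversal {s : ℕ} (a : Fin s → ℕ) (P : Fin s → ℤ[X][X]) (t : ℚ) : Prop :=
  (∀ j, (fibre (P j) t).natDegree = a j) ∧ Squarefree (∏ j, fibre (P j) t)

/-- the `x` with `|x| ≤ B` for which the point `(x / m, t)` is on one of the divisors or
`∑_{p ∣ ∏_j P_j, p ∉ S} log p < θ log B` for some set `S` of weight at most `η log B` -/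
def Exceptions {s : ℕ} (a b : Fin s → ℕ) (P : Fin s → ℤ[X][X]) (m : ℤ) (t : ℚ) (η θ : ℝ) (B : ℕ) : Set ℤ :=
  {x | |x| ≤ B ∧ ((∃ j, value (a j) (b j) (P j) x m t.num t.den = 0) ∨ ∃ S : Finset ℕ,
    ∑ p ∈ S, Real.log (p : ℝ) ≤ η * Real.log B ∧
      counting S (∏ j, value (a j) (b j) (P j) x m t.num t.den) < θ * Real.log B)}

/-- the polynomial `z ^ b P (X, y / z)` -/
noncomputable def spec (b : ℕ) (P : ℤ[X][X]) (y z : ℤ) : ℤ[X] :=
  ∑ u ∈ Finset.range (P.natDegree + 1),
    C (∑ v ∈ Finset.range (b + 1), (P.coeff u).coeff v * y ^ v * z ^ (b - v)) * X ^ u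

theorem spec_coeff (b : ℕ) (P : ℤ[X][X]) (y z : ℤ) (u : ℕ) :
    (spec b P y z).coeff u = ∑ v ∈ Finset.range (b + 1), (P.coeff u).coeff v * y ^ v * z ^ (b - v) := by
  unfold spec
  rw [finsetSum_coeff]
  simp only [coeff_C_mul, coeff_X_pow, mul_ite, mul_one, mul_zero]
  rw [Finset.sum_ite_eq]
  split_ifs with h
  · rfl
  · rw [Finset.mem_range, not_lt] at h
    rw [coeff_eq_zero_of_natDegree_lt (by omega)]
    simp

theorem value_eq (a b : ℕ) (P : ℤ[X][X]) (x m y z : ℤ) :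
    value a b P x m y z = (Run7.h742.UN.scale a m (spec b P y z)).eval x := by
  rw [Run7.h742.UN.scale_eval]
  unfold value
  exact Finset.sum_congr rfl fun u _ => by rw [spec_coeff]

theorem fibre_coeff (P : ℤ[X][X]) (t : ℚ) (u : ℕ) :
    (fibre P t).coeff u = ((P.coeff u).map (Int.castRingHom ℚ)).eval t := by
  unfold fibre rat
  rw [coeff_map, coeff_map]
  rfl

theorem spec_map (b : ℕ) (P : ℤ[X][X]) (hb : ∀ u, (P.coeff u).natDegree ≤ b) (t : ℚ) :
    (spec b P t.num t.den).map (Int.castRingHom ℚ) = C ((t.den : ℚ) ^ b) * fibre P t := by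
  have hz : (t.den : ℚ) ≠ 0 := by exact_mod_cast t.den_nz
  ext u
  rw [coeff_map, spec_coeff, coeff_C_mul, fibre_coeff, eval_eq_sum_range' (n := b + 1)
    (by have := natDegree_map_le (p := P.coeff u) (f := Int.castRingHom ℚ); have := hb u; omega),
    Finset.mul_sum, eq_intCast]
  push_cast
  refine Finset.sum_congr rfl fun v hv => ?_
  rw [Finset.mem_range] at hv
  rw [coeff_map, eq_intCast]
  have h1 : (t.den : ℚ) ^ b = (t.den : ℚ) ^ (b - v) * (t.den : ℚ) ^ v := by
    rw [← pow_add]; congr 1; omega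
  have h2 : t ^ v * (t.den : ℚ) ^ v = (t.num : ℚ) ^ v := by
    rw [← mul_pow, Rat.mul_den_eq_num]
  rw [h1, ← h2]
  ring

theorem spec_natDegree (b : ℕ) (P : ℤ[X][X]) (hb : ∀ u, (P.coeff u).natDegree ≤ b) (t : ℚ) :
    (spec b P t.num t.den).natDegree = (fibre P t).natDegree := by
  have hz : (t.den : ℚ) ≠ 0 := by exact_mod_cast t.den_nz
  have h1 : ((spec b P t.num t.den).map (Int.castRingHom ℚ)).natDegree = (spec b P t.num t.den).natDegree :=
    natDegree_map_eq_of_injective (Int.cast_injective) _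
  rw [← h1, spec_map b P hb, natDegree_C_mul (pow_ne_zero _ hz)]

theorem squarefree_spec {s : ℕ} (b : Fin s → ℕ) (P : Fin s → ℤ[X][X])
    (hb : ∀ j u, ((P j).coeff u).natDegree ≤ b j) (t : ℚ) (h : Squarefree (∏ j, fibre (P j) t)) :
    Squarefree ((∏ j, spec (b j) (P j) t.num t.den).map (Int.castRingHom ℚ)) := by
  have hz : (t.den : ℚ) ≠ 0 := by exact_mod_cast t.den_nz
  have h1 : ((∏ j, spec (b j) (P j) t.num t.den).map (Int.castRingHom ℚ)) =
      C (∏ j, (t.den : ℚ) ^ (b j)) * ∏ j, fibre (P j) t := by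
    rw [Polynomial.map_prod, map_prod, ← Finset.prod_mul_distrib]
    exact Finset.prod_congr rfl fun j _ => spec_map _ _ (hb j) _
  rw [h1, squarefree_mul_iff]
  have hu : IsUnit (C (∏ j, (t.den : ℚ) ^ (b j)) : ℚ[X]) :=
    (isUnit_iff_ne_zero.2 (Finset.prod_ne_zero_iff.2 fun j _ => pow_ne_zero _ hz)).map C
  exact ⟨hu.isRelPrime_left, hu.squarefree, h⟩

/-- a bound for the coefficients -/
theorem spec_bound {A B : ℕ} (hB : 1 ≤ B) (b : ℕ) (P : ℤ[X][X]) (hP : ∀ u v, |(P.coeff u).coeff v| ≤ (B : ℤ) ^ A)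
    (t : ℚ) (h1 : |t.num| ≤ (B : ℤ) ^ A) (h2 : (t.den : ℤ) ≤ (B : ℤ) ^ A) (u : ℕ) :
    |(spec b P t.num t.den).coeff u| ≤ (b + 1) * (B : ℤ) ^ (A * (b + 1)) := by
  have hB1 : (1 : ℤ) ≤ B := by exact_mod_cast hB
  rw [spec_coeff]
  refine (Finset.abs_sum_le_sum_abs _ _).trans ?_
  have h3 : ∀ v ∈ Finset.range (b + 1), |(P.coeff u).coeff v * t.num ^ v * (t.den : ℤ) ^ (b - v)| ≤
      (B : ℤ) ^ (A * (b + 1)) := by
    intro v hv
    rw [Finset.mem_range] at hv
    rw [abs_mul, abs_mul, abs_pow, abs_pow]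
    have e1 : |(t.den : ℤ)| ≤ (B : ℤ) ^ A := by rw [abs_of_nonneg (by positivity)]; exact h2
    calc |(P.coeff u).coeff v| * |t.num| ^ v * |(t.den : ℤ)| ^ (b - v)
        ≤ (B : ℤ) ^ A * ((B : ℤ) ^ A) ^ v * ((B : ℤ) ^ A) ^ (b - v) := by
          refine mul_le_mul (mul_le_mul (hP u v) (pow_le_pow_left₀ (abs_nonneg _) h1 _)
            (by positivity) (by positivity)) (pow_le_pow_left₀ (abs_nonneg _) e1 _) (by positivity)
            (by positivity)
      _ = (B : ℤ) ^ (A * (b + 1)) := by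
          rw [← pow_succ', ← pow_add, ← pow_mul]; congr 2; omega
  refine (Finset.sum_le_sum h3).trans ?_
  rw [Finset.sum_const, Finset.card_range, nsmul_eq_mul]
  push_cast
  rfl

theorem rat_natDegree (P : ℤ[X][X]) : (rat P).natDegree = P.natDegree :=
  natDegree_map_eq_of_injective (map_injective _ Int.cast_injective) P

theorem squarefree_frac {s : ℕ} (a b : Fin s → ℕ) (P : Fin s → ℤ[X][X]) (ha : ∀ j, 1 ≤ a j) (hD : Divisor a b P) :
    Squarefree (∏ j, (rat (P j)).map (algebraMap ℚ[X] (RatFunc ℚ))) := by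
  have hprim : ∀ j, (rat (P j)).IsPrimitive := fun j => (hD.prime j).isPrimitive (by
    rw [rat_natDegree, hD.degree_x]; have := ha j; omega)
  have hirr : ∀ j, Irreducible ((rat (P j)).map (algebraMap ℚ[X] (RatFunc ℚ))) := fun j =>
    (IsPrimitive.irreducible_iff_irreducible_map_fraction_map (hprim j)).1 (hD.prime j)
  refine Finset.squarefree_prod_of_pairwise_isCoprime (fun i _ j _ hij => ?_) fun j _ => (hirr j).squarefree
  refine IsCoprime.isRelPrime ((hirr i).coprime_iff_not_dvd.2 fun hdvd => ?_)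
  have h1 := (hprim i).dvd_of_fraction_map_dvd_fraction_map hdvd
  exact hD.distinct i j hij ((hD.prime i).associated_of_dvd (hD.prime j) h1)

theorem exists_bezout {s : ℕ} (a b : Fin s → ℕ) (P : Fin s → ℤ[X][X]) (ha : ∀ j, 1 ≤ a j) (hD : Divisor a b P) :
    ∃ (U V : ℚ[X][X]) (R : ℚ[X]), R ≠ 0 ∧ U * (∏ j, rat (P j)) + V * derivative (∏ j, rat (P j)) = C R := by
  set φ := algebraMap ℚ[X] (RatFunc ℚ) with hφ
  have hinj : Function.Injective φ := IsFractionRing.injective ℚ[X] (RatFunc ℚ)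
  have h1 := squarefree_frac a b P ha hD
  rw [← Polynomial.map_prod, ← PerfectField.separable_iff_squarefree, separable_def'] at h1
  obtain ⟨u, v, huv⟩ := h1
  obtain ⟨b1, hm1, hb1⟩ := IsLocalization.integerNormalization_spec (nonZeroDivisors ℚ[X]) u
  obtain ⟨b2, hm2, hb2⟩ := IsLocalization.integerNormalization_spec (nonZeroDivisors ℚ[X]) v
  refine ⟨C b2 * IsLocalization.integerNormalization (nonZeroDivisors ℚ[X]) u,
    C b1 * IsLocalization.integerNormalization (nonZeroDivisors ℚ[X]) v, b1 * b2,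
    mul_ne_zero (nonZeroDivisors.ne_zero hm1) (nonZeroDivisors.ne_zero hm2), ?_⟩
  apply map_injective φ hinj
  rw [Polynomial.map_add, Polynomial.map_mul, Polynomial.map_mul, Polynomial.map_mul, Polynomial.map_mul,
    ← derivative_map, map_C, map_C, map_C, hb1, hb2, map_mul]
  have h3 : ∀ (c : ℚ[X]) (w : (RatFunc ℚ)[X]), c • w = C (φ c) * w := by
    intro c w
    rw [← smul_eq_C_mul, algebraMap_smul]
  rw [h3, h3, C_mul]
  linear_combination (C (φ b1) * C (φ b2)) * huv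

/-- all but finitely many fibres are transversal -/
theorem finite_bad {s : ℕ} (a b : Fin s → ℕ) (P : Fin s → ℤ[X][X]) (ha : ∀ j, 1 ≤ a j) (hD : Divisor a b P) :
    {t : ℚ | ¬ Transversal a P t}.Finite := by
  obtain ⟨U, V, R, hR, hUV⟩ := exists_bezout a b P ha hD
  have h1 : {t : ℚ | R.eval t = 0}.Finite :=
    (R.roots.toFinset.finite_toSet).subset fun t ht => by
      rw [Finset.mem_coe, Multiset.mem_toFinset, mem_roots hR]; exact ht
  have h2 : ∀ j, {t : ℚ | ((P j).leadingCoeff.map (Int.castRingHom ℚ)).eval t = 0}.Finite := fun j => by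
    have hne : (P j).leadingCoeff.map (Int.castRingHom ℚ) ≠ 0 := by
      rw [Ne, Polynomial.map_eq_zero_iff Int.cast_injective, leadingCoeff_eq_zero]
      intro h0
      have := ha j
      rw [← hD.degree_x j, h0, natDegree_zero] at this
      omega
    refine (((P j).leadingCoeff.map (Int.castRingHom ℚ)).roots.toFinset.finite_toSet).subset fun t ht => ?_
    rw [Finset.mem_coe, Multiset.mem_toFinset, mem_roots hne]; exact ht
  refine (h1.union (Set.finite_iUnion h2)).subset fun t ht => ?_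
  by_contra hcon
  rw [Set.mem_union, not_or, Set.mem_iUnion, not_exists] at hcon
  obtain ⟨hc1, hc2⟩ := hcon
  rw [Set.mem_setOf_eq] at hc1
  refine ht ⟨fun j => ?_, ?_⟩
  · refine natDegree_eq_of_le_of_coeff_ne_zero ?_ ?_
    · rw [← hD.degree_x j, ← rat_natDegree]
      exact natDegree_map_le
    · rw [fibre_coeff, ← hD.degree_x j]
      exact hc2 j
  · have h3 : (∏ j, fibre (P j) t) = (∏ j, rat (P j)).map (evalRingHom t) := by
      rw [Polynomial.map_prod]; rfl
    rw [h3, ← PerfectField.separable_iff_squarefree, separable_def']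
    have h4 := congrArg (Polynomial.map (evalRingHom t)) hUV
    rw [Polynomial.map_add, Polynomial.map_mul, Polynomial.map_mul, ← derivative_map, map_C,
      coe_evalRingHom] at h4
    refine ⟨C (R.eval t)⁻¹ * U.map (evalRingHom t), C (R.eval t)⁻¹ * V.map (evalRingHom t), ?_⟩
    have h5 : C (R.eval t)⁻¹ * C (R.eval t) = (1 : ℚ[X]) := by
      rw [← C_mul, inv_mul_cancel₀ hc1, C_1]
    linear_combination C (R.eval t)⁻¹ * h4 + h5

theorem exc_eq {s : ℕ} (a b : Fin s → ℕ) (P : Fin s → ℤ[X][X]) (m : ℤ) (t : ℚ) (η θ : ℝ) (B : ℕ) :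
    Exceptions a b P m t η θ B = Run7.h742.UN.Exc
      (fun j => Run7.h742.UN.scale (a j) m (spec (b j) (P j) t.num t.den)) η θ B := by
  unfold Exceptions Run7.h742.UN.Exc
  simp only [value_eq]
  rfl

theorem part_one {s : ℕ} (a b : Fin s → ℕ) (ha : ∀ j, 1 ≤ a j) (A : ℕ) (θ η : ℝ)
    (hθ : θ + η < ∑ j, ((min (a j) 2 : ℕ) : ℝ)) :
    ∃ c : ℝ, 0 < c ∧ ∃ C : ℝ, 0 < C ∧ ∀ B : ℕ, 1 ≤ B → ∀ P : Fin s → ℤ[X][X], Divisor a b P →
      (∀ j u v, |((P j).coeff u).coeff v| ≤ (B : ℤ) ^ A) → ∀ m : ℤ, m ≠ 0 → |m| ≤ (B : ℤ) ^ A →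
      ∀ t : ℚ, Transversal a P t → |t.num| ≤ (B : ℤ) ^ A → (t.den : ℤ) ≤ (B : ℤ) ^ A →
        ((Exceptions a b P m t η θ B).ncard : ℝ) ≤ C * (B : ℝ) ^ (1 - c) := by
  obtain ⟨c, hc, C, hC, h⟩ := Run7.h742.UN.final_den a ha ((A + 1) * (∑ j, b j + 1)) θ η hθ
  refine ⟨c, hc, C + 3, by positivity, fun B hB P hD hP m hm hmB t ht h1 h2 => ?_⟩
  have hpos : 0 ≤ (B : ℝ) ^ (1 - c) := by positivity
  rcases Nat.lt_or_ge B 2 with hB2 | hB2
  · have hB1 : B = 1 := by omega
    subst hB1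
    have h4 : (Exceptions a b P m t η θ 1).ncard ≤ (Finset.Icc (-(1 : ℤ)) 1).card := by
      rw [← Set.ncard_coe_finset]
      refine Set.ncard_le_ncard (fun x hx => ?_) (Finset.finite_toSet _)
      rw [Finset.mem_coe, Finset.mem_Icc, ← abs_le]
      exact_mod_cast hx.1
    have h5 : (Finset.Icc (-(1 : ℤ)) 1).card = 3 := by decide
    rw [h5] at h4
    have h6 : ((Exceptions a b P m t η θ 1).ncard : ℝ) ≤ 3 := by exact_mod_cast h4
    rw [Nat.cast_one, Real.one_rpow]
    linarith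
  · have hB1 : (1 : ℤ) ≤ B := by exact_mod_cast hB
    have hB2' : (2 : ℤ) ≤ B := by exact_mod_cast hB2
    have h3 := h B hB (fun j => spec (b j) (P j) t.num t.den)
      (fun j => by rw [spec_natDegree _ _ (hD.degree_t_le j)]; exact ht.1 j)
      (fun j i => by
        refine (spec_bound hB (b j) (P j) (hP j) t h1 h2 i).trans ?_
        have e1 : b j ≤ ∑ j, b j := Finset.single_le_sum (f := b) (fun _ _ => Nat.zero_le _) (Finset.mem_univ j)
        have e2 : ((b j : ℤ) + 1) ≤ (B : ℤ) ^ (∑ j, b j + 1) := by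
          calc ((b j : ℤ) + 1) ≤ (2 : ℤ) ^ (b j + 1) := by exact_mod_cast Nat.lt_two_pow_self.le
            _ ≤ (B : ℤ) ^ (b j + 1) := pow_le_pow_left₀ (by norm_num) hB2' _
            _ ≤ _ := pow_le_pow_right₀ hB1 (by omega)
        calc ((b j : ℤ) + 1) * (B : ℤ) ^ (A * (b j + 1))
            ≤ (B : ℤ) ^ (∑ j, b j + 1) * (B : ℤ) ^ (A * (∑ j, b j + 1)) :=
              mul_le_mul e2 (pow_le_pow_right₀ hB1 (Nat.mul_le_mul_left A (by omega)))
                (by positivity) (by positivity)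
          _ = _ := by rw [← pow_add]; congr 1; ring)
      (squarefree_spec b P hD.degree_t_le t ht.2) m hm
      (hmB.trans (pow_le_pow_right₀ hB1 (by nlinarith [Nat.zero_le (∑ j, b j)])))
    rw [← exc_eq] at h3
    refine h3.trans ?_
    nlinarith

theorem Exceptions_finite {s : ℕ} (a b : Fin s → ℕ) (P : Fin s → ℤ[X][X]) (m : ℤ) (t : ℚ) (η θ : ℝ)
    (B : ℕ) : (Exceptions a b P m t η θ B).Finite := by
  rw [exc_eq]; exact Run7.h742.UN.Exc_finite _ _ _ _

theorem counting_nonneg (S : Finset ℕ) (a : ℤ) : 0 ≤ counting S a :=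
  Finset.sum_nonneg fun p _ => Real.log_natCast_nonneg p

theorem counting_mono (S : Finset ℕ) {a b : ℤ} (hb : b ≠ 0) (h : a ∣ b) :
    counting S a ≤ counting S b := by
  refine Finset.sum_le_sum_of_subset_of_nonneg (Finset.sdiff_subset_sdiff ?_ le_rfl)
    (fun p _ _ => Real.log_natCast_nonneg p)
  exact Nat.primeFactors_mono (Int.natAbs_dvd_natAbs.2 h) (Int.natAbs_ne_zero.2 hb)

/-- the logarithmic height of `t` -/
noncomputable def height (t : ℚ) : ℝ := Real.log (max |t.num| t.den : ℤ)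

/-- the `x` with `|x| ≤ B` for which the point `(x / m, t)` is on one of the divisors or the inequality
`(q - 2 - ε) h(x / m) + (r - 2) h(t) ≤ N_S^(1)` fails for some set `S` of weight at most `η log B`.
Here `q = ∑ a_j + e`, `r = ∑ b_j + g` is the bidegree of the divisor `D` which is the sum of the
`P_j = 0`, of `e` times (`e` is `0` or `1`) the fibre `x = ∞` and of `g` fibres of the second
projection. The height of `x / m` is replaced by the (not smaller) `log max (|x|, |m|)`, and the `g` fibres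
of the second projection are not used on the right side, which could only become larger. -/
def Failures {s : ℕ} (a b : Fin s → ℕ) (P : Fin s → ℤ[X][X]) (e g : ℕ) (m : ℤ) (t : ℚ) (η ε : ℝ)
    (B : ℕ) : Set ℤ :=
  {x | |x| ≤ B ∧ ((∃ j, value (a j) (b j) (P j) x m t.num t.den = 0) ∨ ∃ S : Finset ℕ,
    ∑ p ∈ S, Real.log (p : ℝ) ≤ η * Real.log B ∧
      counting S (m ^ e * ∏ j, value (a j) (b j) (P j) x m t.num t.den) <
        ((∑ j, a j + e : ℕ) - 2 - ε) * Real.log (max |x| |m| : ℤ) +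
          ((∑ j, b j + g : ℕ) - 2) * height t)}

theorem height_nonneg (t : ℚ) : 0 ≤ height t := by
  unfold height
  refine Real.log_nonneg ?_
  have h1 : (1 : ℤ) ≤ max |t.num| t.den := le_max_of_le_right (by exact_mod_cast t.den_pos)
  exact_mod_cast h1

theorem part_two {s : ℕ} (a b : Fin s → ℕ) (ha : ∀ j, 1 ≤ a j) (A : ℕ) (e g : ℕ) (ε η κ : ℝ)
    (hε : 0 < ε) (hκ : 0 ≤ κ) (hκA : κ ≤ A) (hq : 2 + ε ≤ (∑ j, a j + e : ℕ))
    (hcond : (∑ j, (a j - 2) + e : ℕ) + ((∑ j, b j + g - 2 : ℕ) : ℝ) * κ + η < 2 + ε) :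
    ∃ c : ℝ, 0 < c ∧ ∃ C : ℝ, 0 < C ∧ ∀ B : ℕ, 1 ≤ B → ∀ P : Fin s → ℤ[X][X], Divisor a b P →
      (∀ j u v, |((P j).coeff u).coeff v| ≤ (B : ℤ) ^ A) → ∀ m : ℤ, m ≠ 0 → |m| ≤ B →
      ∀ t : ℚ, Transversal a P t → height t ≤ κ * Real.log B →
        ((Failures a b P e g m t η ε B).ncard : ℝ) ≤ C * (B : ℝ) ^ (1 - c) := by
  have hsum : (((∑ j, a j + e : ℕ) : ℝ) - 2 - ε) + ((∑ j, b j + g - 2 : ℕ) : ℝ) * κ + η <
      ∑ j, ((min (a j) 2 : ℕ) : ℝ) := by
    have h2 : ∑ j, a j + e = ∑ j, min (a j) 2 + (∑ j, (a j - 2) + e) := by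
      have h3 : ∑ j, a j = ∑ j, min (a j) 2 + ∑ j, (a j - 2) := by
        rw [← Finset.sum_add_distrib]
        exact Finset.sum_congr rfl fun j _ => by omega
      omega
    rw [h2]
    push_cast at hcond ⊢
    linarith
  obtain ⟨c, hc, C, hC, h⟩ := part_one a b ha (A + 1)
    ((((∑ j, a j + e : ℕ) : ℝ) - 2 - ε) + ((∑ j, b j + g - 2 : ℕ) : ℝ) * κ) η hsum
  refine ⟨c, hc, C, hC, fun B hB P hD hP m hm hmB t ht hht => ?_⟩
  have hBZ : (1 : ℤ) ≤ (B : ℤ) := by exact_mod_cast hB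
  have hBR : (1 : ℝ) ≤ (B : ℝ) := by exact_mod_cast hB
  have hlB : 0 ≤ Real.log B := Real.log_nonneg hBR
  have hm' : |m| ≤ (B : ℤ) ^ (A + 1) := hmB.trans (by
    calc (B : ℤ) = (B : ℤ) ^ 1 := (pow_one _).symm
      _ ≤ _ := pow_le_pow_right₀ hBZ (by omega))
  have hmax1 : (1 : ℤ) ≤ max |t.num| t.den := le_max_of_le_right (by exact_mod_cast t.den_pos)
  have hmax : max |t.num| (t.den : ℤ) ≤ (B : ℤ) ^ (A + 1) := by
    refine le_trans ?_ (pow_le_pow_right₀ hBZ (by omega : A ≤ A + 1))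
    have h1 : ((max |t.num| t.den : ℤ) : ℝ) ≤ (B : ℝ) ^ A := by
      have h2 : (0 : ℝ) < ((max |t.num| t.den : ℤ) : ℝ) := by exact_mod_cast (by omega : (0:ℤ) < max |t.num| t.den)
      rw [← Real.log_le_log_iff h2 (by positivity), Real.log_pow]
      refine hht.trans (mul_le_mul_of_nonneg_right hκA hlB)
    exact_mod_cast h1
  have h4 := h B hB P hD (fun j u v => (hP j u v).trans (pow_le_pow_right₀ hBZ (by omega))) m hm hm' t ht ((le_max_left _ _).trans hmax) ((le_max_right _ _).trans hmax)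
  refine le_trans ?_ h4
  have hsub : Failures a b P e g m t η ε B ⊆ Exceptions a b P m t η
      ((((∑ j, a j + e : ℕ) : ℝ) - 2 - ε) + ((∑ j, b j + g - 2 : ℕ) : ℝ) * κ) B := by
    rintro x ⟨hxB, hx⟩
    refine ⟨hxB, ?_⟩
    by_cases h0 : ∃ j, value (a j) (b j) (P j) x m t.num t.den = 0
    · exact Or.inl h0
    rcases hx with hx | ⟨S, hS, hlt⟩
    · exact Or.inl hx
    refine Or.inr ⟨S, hS, ?_⟩
    push Not at h0
    have hne : m ^ e * ∏ j, value (a j) (b j) (P j) x m t.num t.den ≠ 0 :=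
      mul_ne_zero (pow_ne_zero _ hm) (Finset.prod_ne_zero_iff.2 fun j _ => h0 j)
    have h5 := counting_mono S hne (dvd_mul_left (∏ j, value (a j) (b j) (P j) x m t.num t.den) (m ^ e))
    have h6 : Real.log (max |x| |m| : ℤ) ≤ Real.log B := by
      have h7 : (0 : ℤ) < max |x| |m| := lt_max_of_lt_right (abs_pos.2 hm)
      refine Real.log_le_log (by exact_mod_cast h7) ?_
      exact_mod_cast max_le hxB hmB
    have h8 : (((∑ j, a j + e : ℕ) : ℝ) - 2 - ε) * Real.log (max |x| |m| : ℤ) ≤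
        (((∑ j, a j + e : ℕ) : ℝ) - 2 - ε) * Real.log B :=
      mul_le_mul_of_nonneg_left h6 (by linarith)
    have h9 : (((∑ j, b j + g : ℕ) : ℝ) - 2) * height t ≤ ((∑ j, b j + g - 2 : ℕ) : ℝ) * (κ * Real.log B) := by
      have h10 : (((∑ j, b j + g : ℕ) : ℝ) - 2) ≤ ((∑ j, b j + g - 2 : ℕ) : ℝ) := by
        have h11 : ∑ j, b j + g ≤ (∑ j, b j + g - 2) + 2 := by omega
        have h12 : ((∑ j, b j + g : ℕ) : ℝ) ≤ (((∑ j, b j + g - 2) + 2 : ℕ) : ℝ) := by exact_mod_cast h11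
        push_cast at h12 ⊢
        linarith
      exact (mul_le_mul_of_nonneg_right h10 (height_nonneg t)).trans
        (mul_le_mul_of_nonneg_left hht (Nat.cast_nonneg _))
    calc _ ≤ _ := h5
      _ < _ := hlt
      _ ≤ _ := add_le_add h8 h9
      _ = _ := by ring
  exact_mod_cast Set.ncard_le_ncard hsub (Exceptions_finite a b P m t η _ B)

/-- **Vojta's inequality with truncated counting function on `ℙ¹ × ℙ¹` in every fibre.** -/
theorem result {s : ℕ} (a b : Fin s → ℕ) (ha : ∀ j, 1 ≤ a j) :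
    -- all but finitely many fibres are transversal
    (∀ P : Fin s → ℤ[X][X], Divisor a b P → {t : ℚ | ¬ Transversal a P t}.Finite) ∧
    -- the lower bound for the truncated counting function in every transversal fibre
    (∀ (A : ℕ) (θ η : ℝ), θ + η < ∑ j, ((min (a j) 2 : ℕ) : ℝ) →
      ∃ c : ℝ, 0 < c ∧ ∃ C : ℝ, 0 < C ∧ ∀ B : ℕ, 1 ≤ B → ∀ P : Fin s → ℤ[X][X], Divisor a b P →
        (∀ j u v, |((P j).coeff u).coeff v| ≤ (B : ℤ) ^ A) → ∀ m : ℤ, m ≠ 0 → |m| ≤ (B : ℤ) ^ A →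
        ∀ t : ℚ, Transversal a P t → |t.num| ≤ (B : ℤ) ^ A → (t.den : ℤ) ≤ (B : ℤ) ^ A →
          ((Exceptions a b P m t η θ B).ncard : ℝ) ≤ C * (B : ℝ) ^ (1 - c)) ∧
    -- the inequality of the conjecture in every transversal fibre
    (∀ (A e g : ℕ) (ε η κ : ℝ), e ≤ 1 → 0 < ε → 0 ≤ κ → κ ≤ A → 2 + ε ≤ (∑ j, a j + e : ℕ) →
      (∑ j, (a j - 2) + e : ℕ) + ((∑ j, b j + g - 2 : ℕ) : ℝ) * κ + η < 2 + ε →
      ∃ c : ℝ, 0 < c ∧ ∃ C : ℝ, 0 < C ∧ ∀ B : ℕ, 1 ≤ B → ∀ P : Fin s → ℤ[X][X], Divisor a b P →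
        (∀ j u v, |((P j).coeff u).coeff v| ≤ (B : ℤ) ^ A) → ∀ m : ℤ, m ≠ 0 → |m| ≤ B →
        ∀ t : ℚ, Transversal a P t → height t ≤ κ * Real.log B →
          ((Failures a b P e g m t η ε B).ncard : ℝ) ≤ C * (B : ℝ) ^ (1 - c)) :=
  ⟨fun P hD => finite_bad a b P ha hD, fun A θ η hθ => part_one a b ha A θ η hθ,
    fun A e g ε η κ _ hε hκ hκA hq hc => part_two a b ha A e g ε η κ hε hκ hκA hq hc⟩

end Pool.Agent.Results.MP_542436_nt.EveryFibre
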