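import Mathlib
import Pool.Agent.Run7.h720.SegMain

set_option autoImplicit false

/-!
# The truncated inequality of Vojta on the product of two lines over number fields, for all simple
# normal crossings divisors, at the short points with a short multiple of the radical

Let `K` be a number field and let `D` be a divisor on `P^1 × P^1` over `K` with the components
`D_i = {F_i = 0}`, `F_i` bihomogeneous of bidegree `(a_i, b_i)` in the variables
`(X_0, X_1; X_2, X_3)`, with simple normal crossings: at each point with coordinates in an extension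
field of `K` the gradients of those `F_i` which vanish there are linearly independent.

Let `Γ` be a finitely generated subgroup of the multiplicative group of `K` (for example, a group of
`S`-units). For a small `δ > 0` we consider the points `(α, β)` whose coordinate vectors `α` and `β` are
sums of `r` vectors with entries of height at most `B (H(α) H(β)) ^ δ`, multiplied by elements of
`Γ`, and numbers `ρ` of the same kind such that at each prime outside `T` the multiplicity with which
`(α, β)` meets `D` is at most the order of `ρ ^ M * τ`, where `τ` is an arbitrary cofactor.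
-/

namespace Pool.Agent.Results.MP_542436_nt.ShortPointsNumberFields

open MvPolynomial NumberField IsDedekindDomain Height
open Pool.Agent.K1H83.VN

variable {K : Type} [Field K] [NumberField K]

/-- The polynomial `F` in the variables `(X_0, X_1; X_2, X_3)` is bihomogeneous of bidegree
`(a, b)`. -/
def IsBihomogeneous (F : MvPolynomial (Fin 4) K) (a b : ℕ) : Prop :=
  F.IsWeightedHomogeneous ![1, 1, 0, 0] a ∧ F.IsWeightedHomogeneous ![0, 0, 1, 1] b

/-- `F(α, β)` -/
noncomputable def value (F : MvPolynomial (Fin 4) K) (α β : Fin 2 → K) : K :=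
  aeval ![α 0, α 1, β 0, β 1] F

/-- Simple normal crossings: at each point with coordinates in an extension field of `K`, the
gradients of those `F i` which vanish there are linearly independent. -/
def NormalCrossings {q : ℕ} (F : Fin q → MvPolynomial (Fin 4) K) : Prop :=
  ∀ (L : Type) [Field L] [Algebra K L] (z : Fin 4 → L), (z 0 ≠ 0 ∨ z 1 ≠ 0) →
    (z 2 ≠ 0 ∨ z 3 ≠ 0) → LinearIndependent L (fun i : {i : Fin q // aeval z (F i) = 0} =>
      fun c : Fin 4 => aeval z (pderiv c (F i)))

/-- The local height `λ_{D, v}(α, β)` for `D = {∏ F i = 0}`, `F i` of bidegree `(a i, b i)`. -/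
noncomputable def localHeight {q : ℕ} (F : Fin q → MvPolynomial (Fin 4) K) (a b : Fin q → ℕ)
    (v : HeightOneSpectrum (𝓞 K)) (α β : Fin 2 → K) : ℝ :=
  ∑ i, Real.log ((⨆ j, FinitePlace.mk v (α j)) ^ a i * (⨆ j, FinitePlace.mk v (β j)) ^ b i /
    FinitePlace.mk v (value (F i) α β))

/-- The term of the prime `v` in the truncated counting function. -/
noncomputable def truncated {q : ℕ} (F : Fin q → MvPolynomial (Fin 4) K) (a b : Fin q → ℕ)
    (v : HeightOneSpectrum (𝓞 K)) (α β : Fin 2 → K) : ℝ :=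
  min (Real.log (Ideal.absNorm v.asIdeal : ℝ)) (localHeight F a b v α β)

/-- The truncated counting function `N_D^(1)(α, β)`. -/
noncomputable def truncatedCounting {q : ℕ} (F : Fin q → MvPolynomial (Fin 4) K)
    (a b : Fin q → ℕ) (α β : Fin 2 → K) : ℝ :=
  ∑ᶠ v : HeightOneSpectrum (𝓞 K), truncated F a b v α β

/-- `ord_v (z)` times the logarithm of the norm of the prime `v`. -/
noncomputable def ord (v : HeightOneSpectrum (𝓞 K)) (z : K) : ℝ := -Real.log (FinitePlace.mk v z)

/-- The counting function of the zeros of `z` outside `T`: the sum of the `ord v z` over the primes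
`v` outside `T`. -/
noncomputable def counting (T : Set (HeightOneSpectrum (𝓞 K))) (z : K) : ℝ :=
  ∑ᶠ (v : HeightOneSpectrum (𝓞 K)) (_ : v ∉ T), ord v z

/-- `z` is a sum of `r` terms `c * γ` with `γ` in `Γ` and `c` of (multiplicative, relative) height at
most `R`. -/
def IsShort (Γ : Subgroup Kˣ) (r : ℕ) (R : ℝ) (z : K) : Prop :=
  ∃ (c : Fin r → K) (γ : Fin r → Kˣ), (∀ j, γ j ∈ Γ) ∧ (∀ j, mulHeight₁ (c j) ≤ R) ∧
    z = ∑ j, c j * (γ j : K)

/-- The vector `x` is a sum of `r` terms `γ • c` with `γ` in `Γ` and `c` a vector with entries of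
(multiplicative, relative) height at most `R`. -/
def IsShortVector {m : ℕ} (Γ : Subgroup Kˣ) (r : ℕ) (R : ℝ) (x : Fin m → K) : Prop :=
  ∃ (c : Fin r → Fin m → K) (γ : Fin r → Kˣ), (∀ j, γ j ∈ Γ) ∧ (∀ j i, mulHeight₁ (c j i) ≤ R) ∧
    ∀ i, x i = ∑ j, c j i * (γ j : K)

/-! ### Auxiliary lemmas -/

omit [NumberField K] in
/-- a lower bound for the local heights -/
theorem local_low (f : AbsoluteValue K ℝ) (F : MvPolynomial (Fin 4) K) (a b : ℕ)
    (hF : IsBihomogeneous F a b) : ∃ c : ℝ, ∀ α β : Fin 2 → K, value F α β ≠ 0 → α ≠ 0 → β ≠ 0 →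
      -c ≤ Real.log (nm f α ^ a * nm f β ^ b / f (value F α β)) := by
  classical
  obtain ⟨S, hS⟩ : ∃ S : ℝ, S = ∑ s ∈ F.support, f (coeff s F) + 1 := ⟨_, rfl⟩
  have hS0 : 0 ≤ ∑ s ∈ F.support, f (coeff s F) := Finset.sum_nonneg fun s _ => f.nonneg _
  have hS1 : 0 < S := by rw [hS]; linarith
  refine ⟨Real.log S, fun α β hv hα hβ => ?_⟩
  have hα' := nm_pos f hα
  have hβ' := nm_pos f hβ
  have h1 : f (value F α β) ≤ S * (nm f α ^ a * nm f β ^ b) := by
    have e1 : value F α β = ∑ s ∈ F.support, coeff s F * (α 0 ^ s 0 * α 1 ^ s 1 * β 0 ^ s 2 *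
        β 1 ^ s 3) := by
      unfold value
      rw [aeval_def, eval₂_eq']
      refine Finset.sum_congr rfl fun s _ => ?_
      rw [Fin.prod_univ_four]
      rfl
    rw [e1]
    refine (f.sum_le _ _).trans ?_
    have h2 : ∀ s ∈ F.support, f (coeff s F * (α 0 ^ s 0 * α 1 ^ s 1 * β 0 ^ s 2 *
        β 1 ^ s 3)) ≤ f (coeff s F) * (nm f α ^ a * nm f β ^ b) := by
      intro s hs
      obtain ⟨h3, h4⟩ := Pool.Agent.Run7.h720.Bihom.support (k := K) hF s hs
      rw [map_mul]
      refine mul_le_mul_of_nonneg_left ?_ (f.nonneg _)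
      rw [map_mul, map_mul, map_mul, map_pow, map_pow, map_pow, map_pow, ← h3, ← h4, pow_add,
        pow_add, mul_assoc]
      have k1 := pow_le_pow_left₀ (f.nonneg _) (le_nm f α 0) (s 0)
      have k2 := pow_le_pow_left₀ (f.nonneg _) (le_nm f α 1) (s 1)
      have k3 := pow_le_pow_left₀ (f.nonneg _) (le_nm f β 0) (s 2)
      have k4 := pow_le_pow_left₀ (f.nonneg _) (le_nm f β 1) (s 3)
      have n1 := f.nonneg (α 0)
      have n2 := f.nonneg (α 1)
      have n3 := f.nonneg (β 0)
      have n4 := f.nonneg (β 1)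
      exact mul_le_mul (mul_le_mul k1 k2 (by positivity) (by positivity))
        (mul_le_mul k3 k4 (by positivity) (by positivity)) (by positivity) (by positivity)
    refine (Finset.sum_le_sum h2).trans ?_
    rw [← Finset.sum_mul]
    exact mul_le_mul_of_nonneg_right (by rw [hS]; linarith) (by positivity)
  have h2 := f.pos_iff.2 hv
  have h3 : S⁻¹ ≤ nm f α ^ a * nm f β ^ b / f (value F α β) := by
    rw [le_div_iff₀ h2, inv_mul_le_iff₀ hS1]
    exact h1
  have h4 := Real.log_le_log (by positivity) h3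
  rwa [Real.log_inv] at h4

theorem truncated_low {q : ℕ} (F : Fin q → MvPolynomial (Fin 4) K) (a b : Fin q → ℕ)
    (hF : ∀ i, IsBihomogeneous (F i) (a i) (b i)) (v : HeightOneSpectrum (𝓞 K)) :
    ∃ c : ℝ, ∀ α β : Fin 2 → K, (∀ i, value (F i) α β ≠ 0) → α ≠ 0 → β ≠ 0 →
      -c ≤ truncated F a b v α β := by
  choose c hc using fun i => local_low (Pool.Agent.W180.OP.fv v) (F i) (a i) (b i) (hF i)
  refine ⟨|∑ i, c i|, fun α β hv hα hβ => ?_⟩
  have h1 : -(∑ i, c i) ≤ localHeight F a b v α β := by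
    rw [← Finset.sum_neg_distrib]
    exact Finset.sum_le_sum fun i _ => hc i α β (hv i) hα hβ
  have h2 := le_abs_self (∑ i, c i)
  have h3 : 0 ≤ Real.log (Ideal.absNorm v.asIdeal : ℝ) := by
    refine Real.log_nonneg ?_
    have h5 : Ideal.absNorm v.asIdeal ≠ 0 := fun h => v.ne_bot (Ideal.absNorm_eq_zero_iff.1 h)
    exact_mod_cast Nat.one_le_iff_ne_zero.2 h5
  have h4 := abs_nonneg (∑ i, c i)
  exact le_min (by linarith) (by linarith)

theorem truncated_support {q : ℕ} (F : Fin q → MvPolynomial (Fin 4) K) (a b : Fin q → ℕ)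
    (α β : Fin 2 → K) (hv : ∀ i, value (F i) α β ≠ 0) (hα : α ≠ 0) (hβ : β ≠ 0) :
    (Function.support fun v : HeightOneSpectrum (𝓞 K) => truncated F a b v α β).Finite := by
  have h1 := nm_support α hα
  have h2 := nm_support β hβ
  have h3 : (⋃ i, {v : HeightOneSpectrum (𝓞 K) |
      Pool.Agent.W180.OP.fv v (value (F i) α β) ≠ 1}).Finite :=
    Set.finite_iUnion fun i => Pool.Agent.W180.OP.fv_support_finite (hv i)
  refine ((h1.union h2).union h3).subset fun v hv => ?_
  by_contra hcon
  rw [Set.mem_union, Set.mem_union, Set.mem_iUnion] at hcon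
  push Not at hcon
  obtain ⟨⟨k1, k2⟩, k3⟩ := hcon
  apply hv
  have e1 : (⨆ j, FinitePlace.mk v (α j)) = 1 := not_not.1 k1
  have e2 : (⨆ j, FinitePlace.mk v (β j)) = 1 := not_not.1 k2
  have e3 : localHeight F a b v α β = 0 := by
    unfold localHeight
    refine Finset.sum_eq_zero fun i _ => ?_
    have e4 : FinitePlace.mk v (value (F i) α β) = 1 := not_not.1 (k3 i)
    rw [e1, e2, e4, one_pow, one_pow, one_mul, div_one, Real.log_one]
  show min _ (localHeight F a b v α β) = 0
  rw [e3]
  refine min_eq_right (Real.log_nonneg ?_)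
  have h5 : Ideal.absNorm v.asIdeal ≠ 0 := fun h => v.ne_bot (Ideal.absNorm_eq_zero_iff.1 h)
  exact_mod_cast Nat.one_le_iff_ne_zero.2 h5

/-- **Main theorem.** Let `K` be a number field, `F i` bihomogeneous polynomials of bidegree
`(a i, b i)` over `K` which define a divisor `D` with simple normal crossings on `P^1 × P^1`, `T` a
finite set of primes of `K`, `Γ` a finitely generated subgroup of the multiplicative group of `K`,
`r` and `M` natural numbers, `B` and `ε > 0` real numbers. There are a nonzero polynomial `G` in two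
variables, `δ > 0` and a constant `C` such that the following holds for all points `(α, β)` over `K`
outside `D` with `α 0 ≠ 0`, `β 0 ≠ 0` and `G (α 1 / α 0, β 1 / β 0) ≠ 0` and all nonzero `ρ` and `τ`
in `K`, integral outside `T`, such that `α`, `β` and `ρ` are sums of `r` terms with coefficients of
height at most `B (H(α) H(β)) ^ δ` and `λ_{D, v} ≤ M ord_v(ρ) + ord_v(τ)` for all primes `v` outside
`T`:
* `(∑ a i - 2 - ε) h(α) + (∑ b i - 2 - ε) h(β) ≤ N_T(ρ) + N_T(τ) + C`;
* if `ρ` has at most simple zeros outside `T`, at primes at which the point meets `D`, then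
  `(∑ a i - 2 - ε) h(α) + (∑ b i - 2 - ε) h(β) ≤ N_D^(1)(α, β) + N_T(τ) + C`. -/
theorem result (K : Type) [Field K] [NumberField K] (q : ℕ)
    (F : Fin q → MvPolynomial (Fin 4) K) (a b : Fin q → ℕ)
    (hF : ∀ i, IsBihomogeneous (F i) (a i) (b i)) (hD : NormalCrossings F)
    (T : Set (HeightOneSpectrum (𝓞 K))) (hT : T.Finite) (Γ : Subgroup Kˣ) (hΓ : Γ.FG)
    (r M : ℕ) (B ε : ℝ) (hε : 0 < ε) :
    ∃ (G : MvPolynomial (Fin 2) K) (δ C : ℝ), G ≠ 0 ∧ 0 < δ ∧
      ∀ (α β : Fin 2 → K) (ρ τ : K), α 0 ≠ 0 → β 0 ≠ 0 →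
        aeval ![α 1 / α 0, β 1 / β 0] G ≠ 0 → (∀ i, value (F i) α β ≠ 0) → ρ ≠ 0 → τ ≠ 0 →
        (∀ v ∉ T, 0 ≤ ord v ρ) → (∀ v ∉ T, 0 ≤ ord v τ) →
        IsShortVector Γ r (B * (mulHeight α * mulHeight β) ^ δ) α →
        IsShortVector Γ r (B * (mulHeight α * mulHeight β) ^ δ) β →
        IsShort Γ r (B * (mulHeight α * mulHeight β) ^ δ) ρ →
        (∀ v ∉ T, localHeight F a b v α β ≤ M * ord v ρ + ord v τ) →
        (((∑ i, a i : ℕ) : ℝ) - 2 - ε) * logHeight α + (((∑ i, b i : ℕ) : ℝ) - 2 - ε) *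
            logHeight β ≤ counting T ρ + counting T τ + C ∧
          ((∀ v ∉ T, ord v ρ ≤ truncated F a b v α β) →
            (((∑ i, a i : ℕ) : ℝ) - 2 - ε) * logHeight α + (((∑ i, b i : ℕ) : ℝ) - 2 - ε) *
              logHeight β ≤ truncatedCounting F a b α β + counting T τ + C) := by
  classical
  obtain ⟨G, δ, C, hG, hδ, hmain⟩ := Pool.Agent.Run7.h720.seg_main K Γ hΓ T hT F a b hF hD r M B
    ε hε
  choose c hc using fun v => truncated_low F a b hF v
  have hcs : (Function.support fun v : HeightOneSpectrum (𝓞 K) =>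
      if v ∈ T then |c v| else 0).Finite := by
    refine hT.subset fun v hv => ?_
    by_contra hcon
    apply hv
    exact if_neg hcon
  have hcs0 : 0 ≤ ∑ᶠ v : HeightOneSpectrum (𝓞 K), if v ∈ T then |c v| else 0 :=
    finsum_nonneg fun v => by
      split_ifs
      · exact abs_nonneg _
      · exact le_rfl
  refine ⟨G, δ, |C| + ∑ᶠ v : HeightOneSpectrum (𝓞 K), (if v ∈ T then |c v| else 0), hG, hδ, ?_⟩
  intro α β ρ τ hα hβ hGz hFz hρ0 hτ0 hρT hτT hsα hsβ hsρ hdiv
  have hord : ∀ (v : HeightOneSpectrum (𝓞 K)) (z : K), z ≠ 0 → 0 ≤ ord v z →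
      Pool.Agent.W180.OP.fv v z ≤ 1 := by
    intro v z hz hv
    have h1 : ord v z = -Real.log (Pool.Agent.W180.OP.fv v z) := rfl
    rw [h1] at hv
    by_contra hcon
    push Not at hcon
    have := Real.log_pos hcon
    linarith
  have key := hmain α β ρ τ hα hβ hGz hFz hρ0 hτ0 (fun v hv => hord v ρ hρ0 (hρT v hv))
    (fun v hv => hord v τ hτ0 (hτT v hv)) hsα hsβ hsρ (by
      intro v hv
      have h1 := hdiv v hv
      have h2 : (M : ℝ) * ord v ρ + ord v τ =
          -(M * Real.log (Pool.Agent.W180.OP.fv v ρ) +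
            Real.log (Pool.Agent.W180.OP.fv v τ)) := by
        have e1 : ord v ρ = -Real.log (Pool.Agent.W180.OP.fv v ρ) := rfl
        have e2 : ord v τ = -Real.log (Pool.Agent.W180.OP.fv v τ) := rfl
        rw [e1, e2]
        ring
      rw [h2] at h1
      exact h1)
  have hcnt : ∀ x : K, Pool.Agent.Run7.h720.cnt T x = counting T x := fun x => rfl
  rw [hcnt, hcnt] at key
  have hC := le_abs_self C
  refine ⟨by linarith, fun hle => ?_⟩
  have hα0 : α ≠ 0 := ne_of_coord hα
  have hβ0 : β ≠ 0 := ne_of_coord hβ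
  have hsup := truncated_support F a b α β hFz hα0 hβ0
  have h5 : counting T ρ ≤ truncatedCounting F a b α β +
      ∑ᶠ v : HeightOneSpectrum (𝓞 K), (if v ∈ T then |c v| else 0) := by
    unfold counting truncatedCounting
    rw [← finsum_add_distrib hsup hcs]
    refine finsum_le_finsum' ?_ ((hsup.union hcs).subset (Function.support_add _ _)) fun v => ?_
    · refine (Pool.Agent.Run7.h720.log_fv_support ρ hρ0).subset fun v hv h => hv ?_
      have h2 : Real.log (Pool.Agent.W180.OP.fv v ρ) = 0 := h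
      have h3 : ord v ρ = 0 := by
        show -Real.log (Pool.Agent.W180.OP.fv v ρ) = 0
        rw [h2, neg_zero]
      show ∑ᶠ (_ : v ∉ T), ord v ρ = 0
      rw [h3]
      exact finsum_zero
    · rw [finsum_eq_if]
      by_cases hv : v ∈ T
      · rw [if_neg (not_not.2 hv), if_pos hv]
        have h6 := hc v α β hFz hα0 hβ0
        have h7 := le_abs_self (c v)
        linarith
      · rw [if_pos hv, if_neg hv, add_zero]
        exact hle v hv
  linarith

end Pool.Agent.Results.MP_542436_nt.ShortPointsNumberFields
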